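import Pool.Agent.Hhelper23.LE.NL

set_option autoImplicit false
set_option linter.unusedSectionVars false

open Filter Topology MeasureTheory
open scoped InnerProductSpace Gradient

namespace Pool.Agent.Results.MP_a6dd47_an.LaneEmdenIsolation

/-- `ℝ^N` with its Euclidean norm. -/
abbrev RN (N : ℕ) : Type := EuclideanSpace ℝ (Fin N)

/-- Lebesgue measure on `Ω`. -/
noncomputable def leb {N : ℕ} (Ω : Set (RN N)) : Measure (RN N) := volume.restrict Ω

/-- The scalar product `∇φ(x)·∇ψ(x)` of gradients. -/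
noncomputable def gradDot {N : ℕ} (φ ψ : RN N → ℝ) (x : RN N) : ℝ := ⟪∇ φ x, ∇ ψ x⟫_ℝ

/-- The vector space `C_0^∞(Ω)`: smooth real functions on `ℝ^N` with compact support contained
in `Ω`. -/
def testSub {N : ℕ} (Ω : Set (RN N)) : Submodule ℝ (RN N → ℝ) where
  carrier := {φ | ContDiff ℝ (⊤ : ℕ∞) φ ∧ HasCompactSupport φ ∧ tsupport φ ⊆ Ω}
  add_mem' := by
    rintro φ ψ ⟨h1, h2, h3⟩ ⟨k1, k2, k3⟩
    exact ⟨h1.add k1, h2.add k2, (tsupport_add φ ψ).trans (Set.union_subset h3 k3)⟩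
  zero_mem' := by
    refine ⟨contDiff_const, HasCompactSupport.zero, ?_⟩
    have : tsupport (0 : RN N → ℝ) = ∅ := tsupport_eq_empty_iff.2 rfl
    rw [this]
    exact Set.empty_subset _
  smul_mem' := by
    rintro c φ ⟨h1, h2, h3⟩
    refine ⟨h1.const_smul c, h2.smul_left (f := fun _ => c), ?_⟩
    refine (closure_mono ?_).trans h3
    exact Function.support_const_smul_subset c φ

/-- `C_0^∞(Ω)` as a vector space. -/
def Test {N : ℕ} (Ω : Set (RN N)) : Type := testSub Ω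

noncomputable instance instGroupTest {N : ℕ} (Ω : Set (RN N)) : AddCommGroup (Test Ω) :=
  Submodule.addCommGroup (testSub Ω)

noncomputable instance instModuleTest {N : ℕ} (Ω : Set (RN N)) : Module ℝ (Test Ω) :=
  Submodule.module (testSub Ω)

/-- The function `ℝ^N → ℝ` underlying a test function. -/
def Test.fn {N : ℕ} {Ω : Set (RN N)} (φ : Test Ω) : RN N → ℝ := φ.1

/-- The Dirichlet form `∫_Ω ∇φ·∇ψ dx` on `C_0^∞(Ω)`. -/
noncomputable def dirichlet {N : ℕ} {Ω : Set (RN N)} (φ ψ : Test Ω) : ℝ :=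
  ∫ x, gradDot φ.fn ψ.fn x ∂(leb Ω)

section
variable {N : ℕ} {Ω : Set (RN N)}

lemma Test.smooth (φ : Test Ω) : ContDiff ℝ (⊤ : ℕ∞) φ.fn := (show testSub Ω from φ).2.1
lemma Test.cpt (φ : Test Ω) : HasCompactSupport φ.fn := (show testSub Ω from φ).2.2.1
lemma Test.tsup (φ : Test Ω) : tsupport φ.fn ⊆ Ω := (show testSub Ω from φ).2.2.2
lemma Test.fn_add (φ ψ : Test Ω) : (φ + ψ).fn = φ.fn + ψ.fn := rfl
lemma Test.fn_smul (c : ℝ) (φ : Test Ω) : (c • φ).fn = c • φ.fn := rfl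

lemma Test.diff (φ : Test Ω) : Differentiable ℝ φ.fn := φ.smooth.differentiable (by simp)

lemma Test.grad_eq (φ : Test Ω) (x : RN N) :
    ∇ φ.fn x = (InnerProductSpace.toDual ℝ (RN N)).symm (fderiv ℝ φ.fn x) := rfl

lemma Test.cont_grad (φ : Test Ω) : Continuous (fun x => ∇ φ.fn x) := by
  have h1 : Continuous (fderiv ℝ φ.fn) := φ.smooth.continuous_fderiv (by simp)
  exact (InnerProductSpace.toDual ℝ (RN N)).symm.continuous.comp h1

lemma Test.grad_add (φ ψ : Test Ω) (x : RN N) : ∇ (φ + ψ).fn x = ∇ φ.fn x + ∇ ψ.fn x := by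
  rw [Test.grad_eq, Test.fn_add, fderiv_add (φ.diff x) (ψ.diff x), map_add]
  rfl

lemma Test.grad_smul (c : ℝ) (φ : Test Ω) (x : RN N) : ∇ (c • φ).fn x = c • ∇ φ.fn x := by
  rw [Test.grad_eq, Test.fn_smul, fderiv_const_smul (φ.diff x), map_smul]
  rfl

lemma Test.cpt_grad (φ : Test Ω) : HasCompactSupport (fun x => ∇ φ.fn x) := by
  have h1 : HasCompactSupport (fderiv ℝ φ.fn) := φ.cpt.fderiv ℝ
  exact h1.comp_left (g := (InnerProductSpace.toDual ℝ (RN N)).symm) (map_zero _)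

lemma Test.integrable_inner (φ ψ : Test Ω) :
    Integrable (fun x => ⟪∇ φ.fn x, ∇ ψ.fn x⟫_ℝ) (leb Ω) := by
  apply Integrable.restrict
  apply Continuous.integrable_of_hasCompactSupport
  · exact φ.cont_grad.inner ψ.cont_grad
  · refine φ.cpt_grad.mono ?_
    intro x hx
    simp only [Function.mem_support] at hx ⊢
    intro h0
    apply hx
    rw [h0, inner_zero_left]

lemma dirichlet_symm (φ ψ : Test Ω) : dirichlet ψ φ = dirichlet φ ψ := by
  simp only [dirichlet, gradDot, real_inner_comm]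

lemma dirichlet_nonneg (φ : Test Ω) : 0 ≤ dirichlet φ φ :=
  integral_nonneg fun _ => real_inner_self_nonneg

lemma dirichlet_add (φ ψ χ : Test Ω) : dirichlet (φ + ψ) χ = dirichlet φ χ + dirichlet ψ χ := by
  simp only [dirichlet, gradDot, Test.grad_add, inner_add_left]
  exact integral_add (Test.integrable_inner φ χ) (Test.integrable_inner ψ χ)

lemma dirichlet_smul (φ ψ : Test Ω) (c : ℝ) : dirichlet (c • φ) ψ = c * dirichlet φ ψ := by
  simp only [dirichlet, gradDot, Test.grad_smul, real_inner_smul_left]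
  exact integral_const_mul _ _

end

/-- The Dirichlet form as a (semi)definite inner product on `C_0^∞(Ω)`. -/
@[reducible] noncomputable def dirichletCore {N : ℕ} (Ω : Set (RN N)) :
    PreInnerProductSpace.Core ℝ (Test Ω) where
  inner := dirichlet
  conj_inner_symm := dirichlet_symm
  re_inner_nonneg := dirichlet_nonneg
  add_left := dirichlet_add
  smul_left := dirichlet_smul

/-- The norm `φ ↦ ‖∇φ‖_{L²(Ω)}` on `C_0^∞(Ω)`. -/
noncomputable instance instNormTest {N : ℕ} (Ω : Set (RN N)) : SeminormedAddCommGroup (Test Ω) :=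
  InnerProductSpace.Core.toSeminormedAddCommGroup (c := dirichletCore Ω)

noncomputable instance instInnerTest {N : ℕ} (Ω : Set (RN N)) : InnerProductSpace ℝ (Test Ω) :=
  InnerProductSpace.ofCore (dirichletCore Ω)

/-- The space `𝒟^{1,2}_0(Ω)`: the completion of `C_0^∞(Ω)` in the norm `φ ↦ ‖∇φ‖_{L²(Ω)}`. -/
def D012 {N : ℕ} (Ω : Set (RN N)) : Type := UniformSpace.Completion (Test Ω)

noncomputable instance instNormD {N : ℕ} (Ω : Set (RN N)) : NormedAddCommGroup (D012 Ω) :=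
  (inferInstance : NormedAddCommGroup (UniformSpace.Completion (Test Ω)))

noncomputable instance instInnerD {N : ℕ} (Ω : Set (RN N)) : InnerProductSpace ℝ (D012 Ω) :=
  (inferInstance : InnerProductSpace ℝ (UniformSpace.Completion (Test Ω)))

/-- The canonical inclusion of `C_0^∞(Ω)` in its completion. -/
noncomputable def Test.toD {N : ℕ} {Ω : Set (RN N)} (φ : Test Ω) : D012 Ω :=
  (φ : UniformSpace.Completion (Test Ω))

/-- The space `L^q(Ω)`. -/
def Lq {N : ℕ} (Ω : Set (RN N)) (q : ℝ) : Type := Lp ℝ (ENNReal.ofReal q) (leb Ω)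

noncomputable instance instNormLq {N : ℕ} (Ω : Set (RN N)) (q : ℝ)
    [Fact (1 ≤ ENNReal.ofReal q)] : NormedAddCommGroup (Lq Ω q) :=
  (inferInstance : NormedAddCommGroup (Lp ℝ (ENNReal.ofReal q) (leb Ω)))

noncomputable instance instSpaceLq {N : ℕ} (Ω : Set (RN N)) (q : ℝ)
    [Fact (1 ≤ ENNReal.ofReal q)] : NormedSpace ℝ (Lq Ω q) :=
  (inferInstance : NormedSpace ℝ (Lp ℝ (ENNReal.ofReal q) (leb Ω)))

/-- A function representing an element of `L^q(Ω)`. -/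
noncomputable def Lq.fn {N : ℕ} {Ω : Set (RN N)} {q : ℝ} (f : Lq Ω q) : RN N → ℝ := ⇑f.1

/-- `J` is the embedding `𝒟^{1,2}_0(Ω) ↪ L^q(Ω)`: the continuous linear map which sends every
test function to (the class in `L^q(Ω)` of) itself. -/
def IsEmbedding {N : ℕ} {Ω : Set (RN N)} {q : ℝ} [Fact (1 ≤ ENNReal.ofReal q)]
    (J : D012 Ω →L[ℝ] Lq Ω q) : Prop :=
  ∀ φ : Test Ω, (J φ.toD).fn =ᵐ[leb Ω] φ.fn

/-- The set `Spec(Ω; q)` of `q`-eigenvalues: `u ∈ 𝒟^{1,2}_0(Ω) \ {0}` solves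
`-Δu = lam ‖u‖_{L^q}^{2-q} |u|^{q-2} u` weakly. Here `⟪u, φ⟫ = ∫_Ω ∇u·∇φ` and `J u` is `u` seen as
an element of `L^q(Ω)`. -/
def Spec {N : ℕ} {Ω : Set (RN N)} {q : ℝ} [Fact (1 ≤ ENNReal.ofReal q)]
    (J : D012 Ω →L[ℝ] Lq Ω q) : Set ℝ :=
  {lam | ∃ u : D012 Ω, u ≠ 0 ∧ ∀ φ : Test Ω, ⟪u, φ.toD⟫_ℝ =
    lam * ‖J u‖ ^ (2 - q) * ∫ x, |(J u).fn x| ^ (q - 2) * (J u).fn x * φ.fn x ∂(leb Ω)}

/-- The first eigenvalue `λ_1(Ω; q)`: the infimum of `‖∇u‖_{L²}²` over `u ∈ 𝒟^{1,2}_0(Ω)` with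
`‖u‖_{L^q(Ω)} = 1`. -/
noncomputable def lambda1 {N : ℕ} {Ω : Set (RN N)} {q : ℝ} [Fact (1 ≤ ENNReal.ofReal q)]
    (J : D012 Ω →L[ℝ] Lq Ω q) : ℝ :=
  sInf {t | ∃ u : D012 Ω, ‖J u‖ = 1 ∧ t = ‖u‖ ^ 2}

section
open Pool.Agent.Hhelper23.LE

variable {N : ℕ} {Ω : Set (RN N)} {q : ℝ} [Fact (1 ≤ ENNReal.ofReal q)]
  {J : D012 Ω →L[ℝ] Lp ℝ (ENNReal.ofReal q) (leb Ω)}

instance instCompleteD {N : ℕ} (Ω : Set (RN N)) : CompleteSpace (D012 Ω) :=
  (inferInstance : CompleteSpace (UniformSpace.Completion (Test Ω)))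

lemma Test.norm_toD (φ : Test Ω) : ‖φ.toD‖ = ‖φ‖ := UniformSpace.Completion.norm_coe φ

lemma Test.inner_toD (φ ψ : Test Ω) : ⟪φ.toD, ψ.toD⟫_ℝ = ⟪φ, ψ⟫_ℝ :=
  UniformSpace.Completion.inner_coe φ ψ

lemma Test.inner_eq (φ ψ : Test Ω) : ⟪φ, ψ⟫_ℝ = ∫ x, ⟪∇ φ.fn x, ∇ ψ.fn x⟫_ℝ ∂(leb Ω) := rfl

lemma denseRange_toD : DenseRange (fun φ : Test Ω => φ.toD) :=
  UniformSpace.Completion.denseRange_coe

/-- smooth truncation of a test function -/
noncomputable def Test.trunc (φ : Test Ω) (ε : ℝ) (hε : 0 < ε) : Test Ω :=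
  show testSub Ω from ⟨fun x => Ftr ε (φ.fn x), (contDiff_Ftr hε).comp φ.smooth,
    φ.cpt.comp_left (g := Ftr ε) (Ftr_zero hε),
    (closure_mono (Function.support_comp_subset (Ftr_zero hε) φ.fn)).trans φ.tsup⟩

lemma Test.trunc_fn (φ : Test Ω) (ε : ℝ) (hε : 0 < ε) (x : RN N) :
    (φ.trunc ε hε).fn x = Ftr ε (φ.fn x) := rfl

lemma Test.trunc_grad (φ : Test Ω) (ε : ℝ) (hε : 0 < ε) (x : RN N) :
    ∇ (φ.trunc ε hε).fn x =
      ((φ.fn x / Real.sqrt ((φ.fn x) ^ 2 + ε ^ 2) + 1) / 2) • ∇ φ.fn x := by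
  have h1 : HasFDerivAt (fun x => Ftr ε (φ.fn x))
      (((φ.fn x / Real.sqrt ((φ.fn x) ^ 2 + ε ^ 2) + 1) / 2) • fderiv ℝ φ.fn x) x :=
    (hasDerivAt_Ftr hε (φ.fn x)).comp_hasFDerivAt x (φ.diff x).hasFDerivAt
  rw [Test.grad_eq, Test.grad_eq]
  have h2 : fderiv ℝ (φ.trunc ε hε).fn x = _ := h1.fderiv
  rw [h2, map_smul]

lemma Test.trunc_inner (φ : Test Ω) (ε : ℝ) (hε : 0 < ε) :
    ‖φ.trunc ε hε‖ ^ 2 ≤ ⟪φ, φ.trunc ε hε⟫_ℝ := by
  rw [← real_inner_self_eq_norm_sq, Test.inner_eq, Test.inner_eq]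
  refine integral_mono (Test.integrable_inner _ _) (Test.integrable_inner _ _) fun x => ?_
  simp only [Test.trunc_grad]
  rw [real_inner_smul_left, real_inner_smul_right]
  obtain ⟨h0, h1⟩ := deriv_Ftr_mem hε (φ.fn x)
  have h2 : 0 ≤ ⟪∇ φ.fn x, ∇ φ.fn x⟫_ℝ := real_inner_self_nonneg
  set d := (φ.fn x / Real.sqrt ((φ.fn x) ^ 2 + ε ^ 2) + 1) / 2
  have h3 : 0 ≤ d * ⟪∇ φ.fn x, ∇ φ.fn x⟫_ℝ := mul_nonneg h0 h2
  nlinarith

lemma posProp_test (hq : 2 < q) (hJ : ∀ φ : Test Ω, J φ.toD =ᵐ[leb Ω] φ.fn)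
    (hJc : IsCompactOperator J) (φ : Test Ω) :
    ∃ v' : D012 Ω, (J v' =ᵐ[leb Ω] fun x => max (J φ.toD x) 0) ∧
      ‖v'‖ ^ 2 ≤ ⟪φ.toD, v'⟫_ℝ := by
  have hq0 : 0 < q := by linarith
  set e : ℕ → ℝ := fun n => 1 / ((n : ℝ) + 1) with he
  have he0 : ∀ n, 0 < e n := fun n => by positivity
  set ψ : ℕ → Test Ω := fun n => φ.trunc (e n) (he0 n) with hψ
  set K : Set (RN N) := tsupport φ.fn with hK
  have hKc : IsCompact K := φ.cpt
  have hKm : MeasurableSet K := (isClosed_tsupport _).measurableSet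
  set m : ℝ := (leb Ω).real K with hm
  have hmfin : (leb Ω) K ≠ ⊤ := by
    refine ne_top_of_le_ne_top (hKc.measure_lt_top (μ := volume)).ne ?_
    exact Measure.restrict_apply_le _ _
  have hconv : Tendsto (fun n => J (ψ n).toD) atTop (𝓝 (Lp.posPart (J φ.toD))) := by
    rw [tendsto_iff_norm_sub_tendsto_zero]
    have hb : ∀ n, ‖J (ψ n).toD - Lp.posPart (J φ.toD)‖ ≤ e n * m ^ (1 / q) := by
      intro n
      rw [norm_Lp_eq hq0]
      have h1 : ∫ x, |(J (ψ n).toD - Lp.posPart (J φ.toD) :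
          Lp ℝ (ENNReal.ofReal q) (leb Ω)) x| ^ q ∂(leb Ω) ≤ e n ^ q * m := by
        calc ∫ x, |(J (ψ n).toD - Lp.posPart (J φ.toD) :
            Lp ℝ (ENNReal.ofReal q) (leb Ω)) x| ^ q ∂(leb Ω)
            ≤ ∫ x, K.indicator (fun _ => e n ^ q) x ∂(leb Ω) := by
              refine integral_mono_ae ?_ ?_ ?_
              · exact integrable_rpow_of_memLp hq0
                  (Lp.memLp (J (ψ n).toD - Lp.posPart (J φ.toD))).norm
                  fun x => abs_nonneg _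
              · exact (integrable_indicator_iff hKm).2 (integrableOn_const hmfin)
              · filter_upwards [Lp.coeFn_sub (J (ψ n).toD) (Lp.posPart (J φ.toD)),
                  Lp.coeFn_posPart (J φ.toD), hJ (ψ n), hJ φ] with x a b c d
                rw [a, Pi.sub_apply, b, c, d, hψ]
                simp only [Test.trunc_fn]
                by_cases hx : x ∈ K
                · rw [Set.indicator_of_mem hx]
                  exact Real.rpow_le_rpow (abs_nonneg _) (abs_Ftr_sub (he0 n) _) hq0.le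
                · rw [Set.indicator_of_notMem hx]
                  have : φ.fn x = 0 := image_eq_zero_of_notMem_tsupport hx
                  rw [this, Ftr_zero (he0 n)]
                  simp [hq0.ne']
          _ = e n ^ q * m := by
              rw [integral_indicator hKm, setIntegral_const, smul_eq_mul, mul_comm]
      have h2 := Real.rpow_le_rpow (integral_nonneg fun x => Real.rpow_nonneg (abs_nonneg _) _) h1
        (show 0 ≤ 1 / q by positivity)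
      rwa [Real.mul_rpow (Real.rpow_nonneg (he0 n).le _) measureReal_nonneg,
        ← Real.rpow_mul (he0 n).le, mul_one_div_cancel hq0.ne', Real.rpow_one] at h2
    have h3 : Tendsto (fun n => e n * m ^ (1 / q)) atTop (𝓝 0) := by
      have := (tendsto_one_div_add_atTop_nhds_zero_nat (𝕜 := ℝ)).mul_const (m ^ (1 / q))
      rwa [zero_mul] at this
    exact squeeze_zero (fun n => norm_nonneg _) hb h3
  obtain ⟨w, hw1, hw2⟩ := pos_limit hJc (v := fun _ => φ.toD) (v' := fun n => (ψ n).toD)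
    tendsto_const_nhds (fun n => by
      rw [Test.norm_toD, Test.inner_toD]
      exact φ.trunc_inner (e n) (he0 n)) hconv
  refine ⟨w, ?_, hw2⟩
  rw [hw1]
  exact Lp.coeFn_posPart _

lemma posProp (hq : 2 < q) (hJ : ∀ φ : Test Ω, J φ.toD =ᵐ[leb Ω] φ.fn)
    (hJc : IsCompactOperator J) : PosProp J :=
  posProp_of_dense hJc (fun φ : Test Ω => φ.toD) denseRange_toD (posProp_test hq hJ hJc)

/-- the weak equation holds against all elements of the completion -/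
lemma eqn_all (hq : 2 < q) (hJ : ∀ φ : Test Ω, J φ.toD =ᵐ[leb Ω] φ.fn) {u : D012 Ω} {A : ℝ}
    (h : ∀ φ : Test Ω, ⟪u, φ.toD⟫_ℝ = A * ∫ x, |J u x| ^ (q - 2) * J u x * φ.fn x ∂(leb Ω))
    (φ : D012 Ω) : ⟪u, φ⟫_ℝ = A * ∫ x, |J u x| ^ (q - 2) * J u x * J φ x ∂(leb Ω) := by
  refine denseRange_toD.induction_on φ ?_ fun φ => ?_
  · refine isClosed_eq (continuous_const.inner continuous_id) ?_
    exact continuous_const.mul ((nl_continuous hq (J u)).comp J.continuous)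
  · rw [h φ]
    congr 1
    refine integral_congr_ae ?_
    filter_upwards [hJ φ] with x hx
    rw [hx]

lemma lambda1_le {J : D012 Ω →L[ℝ] Lq Ω q} {v : D012 Ω} : lambda1 J * ‖J v‖ ^ 2 ≤ ‖v‖ ^ 2 := by
  by_cases hv : ‖J v‖ = 0
  · rw [hv]
    simp only [ne_eq, OfNat.ofNat_ne_zero, not_false_eq_true, zero_pow, mul_zero]
    positivity
  have hpos : 0 < ‖J v‖ := lt_of_le_of_ne (norm_nonneg _) (Ne.symm hv)
  have h1 : lambda1 J ≤ ‖(‖J v‖⁻¹ • v)‖ ^ 2 := by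
    apply csInf_le
    · exact ⟨0, by rintro t ⟨u, _, rfl⟩; positivity⟩
    · refine ⟨‖J v‖⁻¹ • v, ?_, rfl⟩
      rw [map_smul, norm_smul, norm_inv, norm_norm, inv_mul_cancel₀ hv]
  rw [norm_smul, norm_inv, norm_norm, mul_pow, inv_pow] at h1
  rw [← le_div_iff₀ (by positivity)]
  refine h1.trans (le_of_eq ?_)
  rw [inv_mul_eq_div]

lemma lambda1_pos {J : D012 Ω →L[ℝ] Lq Ω q} {v : D012 Ω} (hv : J v ≠ 0) : 0 < lambda1 J := by
  have hJ0 : 0 < ‖J‖ := by
    rcases eq_or_lt_of_le (norm_nonneg J) with h | h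
    · exfalso
      have := J.le_opNorm v
      rw [← h, zero_mul] at this
      exact hv (norm_le_zero_iff.1 this)
    · exact h
  have hpos : 0 < ‖J v‖ := norm_pos_iff.2 hv
  have h1 : (‖J‖ ^ 2)⁻¹ ≤ lambda1 J := by
    apply le_csInf
    · refine ⟨_, ‖J v‖⁻¹ • v, ?_, rfl⟩
      rw [map_smul, norm_smul, norm_inv, norm_norm, inv_mul_cancel₀ hpos.ne']
    · rintro t ⟨u, hu, rfl⟩
      have h2 := J.le_opNorm u
      rw [hu] at h2
      rw [inv_le_iff_one_le_mul₀ (by positivity), ← mul_pow]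
      have : (1:ℝ) ^ 2 ≤ (‖u‖ * ‖J‖) ^ 2 := by
        apply pow_le_pow_left₀ zero_le_one
        linarith
      simpa using this
  exact lt_of_lt_of_le (by positivity) h1

/-- **Isolation, internal form.** -/
theorem isolation (hq : 2 < q) (hJ : ∀ φ : Test Ω, J φ.toD =ᵐ[leb Ω] φ.fn)
    (hJc : IsCompactOperator J) {l : ℝ} (hl : ∀ v : D012 Ω, l * ‖J v‖ ^ 2 ≤ ‖v‖ ^ 2)
    (hl0 : ∀ v : D012 Ω, J v ≠ 0 → 0 < l) :
    ∃ ε > 0, ∀ lam : ℝ, (∃ u : D012 Ω, u ≠ 0 ∧ ∀ φ : Test Ω, ⟪u, φ.toD⟫_ℝ =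
      lam * ‖J u‖ ^ (2 - q) * ∫ x, |J u x| ^ (q - 2) * J u x * φ.fn x ∂(leb Ω)) →
      l < lam → l + ε ≤ lam := by
  have hq0 : 0 < q := by linarith
  -- an eigenvector has nonzero image
  have hne : ∀ (lam : ℝ) (u : D012 Ω), u ≠ 0 → (∀ φ : Test Ω, ⟪u, φ.toD⟫_ℝ =
      lam * ‖J u‖ ^ (2 - q) * ∫ x, |J u x| ^ (q - 2) * J u x * φ.fn x ∂(leb Ω)) → J u ≠ 0 := by
    intro lam u hu h h0
    have h1 := eqn_all hq hJ h u
    have h2 : ∫ x, |J u x| ^ (q - 2) * J u x * J u x ∂(leb Ω) = 0 := by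
      apply integral_eq_zero_of_ae
      rw [h0]
      filter_upwards [Lp.coeFn_zero ℝ (ENNReal.ofReal q) (leb Ω)] with x hx
      rw [hx]
      simp
    rw [h2, mul_zero, real_inner_self_eq_norm_sq] at h1
    exact hu (norm_eq_zero.1 (pow_eq_zero_iff two_ne_zero |>.1 h1))
  by_cases hJ0 : ∃ v : D012 Ω, J v ≠ 0
  · obtain ⟨v, hv⟩ := hJ0
    obtain ⟨ε, hε, hiso⟩ := abs_isolation hq hJc (posProp hq hJ hJc) (hl0 v hv) hl
    refine ⟨ε, hε, fun lam hlam hlt => ?_⟩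
    by_contra hcon
    push Not at hcon
    obtain ⟨u, hu, h⟩ := hlam
    have hJu := hne lam u hu h
    have ht : 0 < ‖J u‖ := norm_pos_iff.2 hJu
    have hall := eqn_all hq hJ h
    have hae : J (‖J u‖⁻¹ • u) =ᵐ[leb Ω] fun x => ‖J u‖⁻¹ * J u x := by
      rw [map_smul]
      exact Lp.coeFn_smul _ _
    refine hiso lam hlt hcon (‖J u‖⁻¹ • u) ?_ ?_
    · rw [← norm_Lp_rpow hq0, map_smul, norm_smul, norm_inv, norm_norm, inv_mul_cancel₀ ht.ne',
        Real.one_rpow]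
    · intro φ
      rw [real_inner_smul_left, hall φ]
      have e1 : ∫ x, |J (‖J u‖⁻¹ • u) x| ^ (q - 2) * J (‖J u‖⁻¹ • u) x * J φ x ∂(leb Ω) =
          ‖J u‖⁻¹ ^ (q - 1) * ∫ x, |J u x| ^ (q - 2) * J u x * J φ x ∂(leb Ω) := by
        rw [← integral_const_mul]
        refine integral_congr_ae ?_
        filter_upwards [hae] with x hx
        rw [hx, abs_mul, abs_of_pos (inv_pos.2 ht), Real.mul_rpow (inv_pos.2 ht).le (abs_nonneg _)]
        have e2 : ‖J u‖⁻¹ ^ (q - 1) = ‖J u‖⁻¹ ^ (q - 2) * ‖J u‖⁻¹ := by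
          rw [← Real.rpow_add_one (inv_pos.2 ht).ne']
          congr 1
          ring
        rw [e2]
        ring
      rw [e1]
      have e3 : ‖J u‖⁻¹ * ‖J u‖ ^ (2 - q) = ‖J u‖⁻¹ ^ (q - 1) := by
        rw [← Real.rpow_neg_one, ← Real.rpow_add ht, ← Real.rpow_mul ht.le]
        congr 1
        ring
      rw [← e3]
      ring
  · push Not at hJ0
    refine ⟨1, one_pos, fun lam hlam _ => ?_⟩
    obtain ⟨u, hu, h⟩ := hlam
    exact absurd (hJ0 u) (hne lam u hu h)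

end

/-- **Isolation of the first Lane–Emden eigenvalue for `q > 2`** (full affirmative answer to Q1).
Let `Ω ⊂ ℝ^N` be open, `q > 2`, and let the embedding `J : 𝒟^{1,2}_0(Ω) ↪ L^q(Ω)` be compact
(i.e. `Ω` is `q`-admissible). Then `λ_1(Ω; q)` is isolated in `Spec(Ω; q)`. -/
theorem result (N : ℕ) (Ω : Set (RN N)) (_hΩ : IsOpen Ω) (q : ℝ) (hq : 2 < q)
    [Fact (1 ≤ ENNReal.ofReal q)] (J : D012 Ω →L[ℝ] Lq Ω q)
    (hJ : IsEmbedding J) (hJc : IsCompactOperator J) :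
    ∃ ε > 0, ∀ lam ∈ Spec J, lambda1 J < lam → lambda1 J + ε ≤ lam :=
  isolation (J := J) hq hJ hJc (fun _ => lambda1_le) (fun _ hv => lambda1_pos hv)

end Pool.Agent.Results.MP_a6dd47_an.LaneEmdenIsolation
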